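import Pool.Agent.Helper11.Q3.Stmts
import Pool.Agent.Helper1.EA.B6

/-!
# Project TF, part A1 (MP_a499ba_nt), block J1a: character sums over the odd squarefree integers
-/

set_option autoImplicit false

namespace Pool.Agent.Helper31.Q3

open Finset

/-- the character `n ↦ (a/n)` on the odd numbers, `0` on the even ones -/
def ja (a n : ℕ) : ℤ := if Odd n then jacobiSym a n else 0

lemma ja_mul (a m n : ℕ) : ja a (m * n) = ja a m * ja a n := by
  unfold ja
  by_cases hm : Odd m
  · by_cases hn : Odd n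
    · have : NeZero m := ⟨by rintro rfl; exact absurd hm (by decide)⟩
      have : NeZero n := ⟨by rintro rfl; exact absurd hn (by decide)⟩
      rw [if_pos (hm.mul hn), if_pos hm, if_pos hn, jacobiSym.mul_right]
    · rw [if_neg hn, mul_zero, if_neg fun h => hn (Nat.odd_mul.1 h).2]
  · rw [if_neg hm, zero_mul, if_neg fun h => hm (Nat.odd_mul.1 h).1]

lemma ja_mod (a n : ℕ) : ja a (n % (4 * a)) = ja a n := by
  unfold ja
  have h4 : Odd (n % (4 * a)) ↔ Odd n := by
    rw [Nat.odd_iff, Nat.odd_iff, Nat.mod_mod_of_dvd _ (Dvd.intro _ (by ring : 2 * (2 * a) = 4 * a))]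
  by_cases hn : Odd n
  · rw [if_pos (h4.2 hn), if_pos hn, jacobiSym.mod_right (a : ℤ) hn, Int.natAbs_natCast]
  · rw [if_neg (mt h4.1 hn), if_neg hn]

lemma ja_abs (a n : ℕ) : |ja a n| ≤ 1 := by
  unfold ja
  by_cases hn : Odd n
  · rw [if_pos hn]
    rcases jacobiSym.trichotomy (a : ℤ) n with h | h | h <;> rw [h] <;> norm_num
  · rw [if_neg hn]; norm_num

/-- the character is not principal -/
lemma exists_neg {a : ℕ} (ha : Squarefree a) (h1 : 1 < a) : ∃ n : ℕ, ja a n = -1 := by
  by_cases h : ∃ p : ℕ, p.Prime ∧ p ≠ 2 ∧ p ∣ a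
  · obtain ⟨p, hp, hp2, c, hc⟩ := h
    have : Fact p.Prime := ⟨hp⟩
    have hpc : Nat.Coprime p c := by
      rw [hc] at ha
      exact Nat.coprime_of_squarefree_mul ha
    have hp4 : Nat.Coprime p (4 * c) := by
      refine Nat.Coprime.mul_right ?_ hpc
      have : Nat.Coprime p 2 := (Nat.coprime_primes hp Nat.prime_two).2 hp2
      exact Nat.Coprime.pow_right 2 this
    obtain ⟨x, hx⟩ := FiniteField.exists_nonsquare (F := ZMod p) (by rw [ZMod.ringChar_zmod_n]; exact hp2)
    obtain ⟨n, hn1, hn2⟩ := Nat.chineseRemainder hp4 x.val 1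
    refine ⟨n, ?_⟩
    have hn4 : n % 4 = 1 := by
      have : n ≡ 1 [MOD 4] := Nat.ModEq.of_mul_right c hn2
      exact this
    have hodd : Odd n := by rw [Nat.odd_iff]; omega
    have hc0 : c ≠ 0 := by rintro rfl; rw [mul_zero] at hc; omega
    unfold ja
    rw [if_pos hodd, hc, Nat.cast_mul, jacobiSym.mul_left]
    have e1 : jacobiSym (c : ℤ) n = 1 := by
      rw [jacobiSym.mod_right (c : ℤ) hodd, Int.natAbs_natCast]
      have : n % (4 * c) = 1 := by
        have := hn2
        unfold Nat.ModEq at this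
        rw [this]
        exact Nat.mod_eq_of_lt (by omega)
      rw [this, jacobiSym.one_right]
    have hpodd : Odd p := hp.odd_of_ne_two hp2
    have e2 : jacobiSym (p : ℤ) n = -1 := by
      rw [← jacobiSym.quadratic_reciprocity_one_mod_four hn4 hpodd, ← jacobiSym.legendreSym.to_jacobiSym,
        legendreSym.eq_neg_one_iff]
      have : ((n : ℤ) : ZMod p) = x := by
        have h1 : ((n : ℕ) : ZMod p) = ((x.val : ℕ) : ZMod p) := (ZMod.natCast_eq_natCast_iff _ _ _).2 hn1
        rw [Int.cast_natCast, h1, ZMod.natCast_zmod_val]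
      rw [this]
      exact hx
    rw [e1, e2]; norm_num
  · push Not at h
    have h2 : a = 2 := by
      obtain ⟨p, hp, c, hc⟩ := Nat.exists_prime_and_dvd (by omega : a ≠ 1)
      have hp2 : p = 2 := by
        by_contra hne
        exact h p hp hne ⟨c, hc⟩
      subst hp2
      by_cases hc1 : c = 1
      · rw [hc, hc1]
      · obtain ⟨r, hr, d, hd⟩ := Nat.exists_prime_and_dvd hc1
        have hr2 : r = 2 := by
          by_contra hne
          exact h r hr hne ⟨2 * d, by rw [hc, hd]; ring⟩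
        subst hr2
        exfalso
        have := ha 2 ⟨d, by rw [hc, hd]; ring⟩
        rw [Nat.isUnit_iff] at this
        omega
    refine ⟨3, ?_⟩
    subst h2
    unfold ja
    rw [if_pos (by decide)]
    norm_num

/-- the sum over a period is `0` -/
lemma sum_period {a : ℕ} (ha : Squarefree a) (h1 : 1 < a) : ∑ n ∈ range (4 * a), ja a n = 0 := by
  obtain ⟨m, hm⟩ := exists_neg ha h1
  have : NeZero (4 * a) := ⟨by omega⟩
  have hodd : Odd m := by
    by_contra h
    unfold ja at hm
    rw [if_neg h] at hm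
    norm_num at hm
  have hcop : Nat.Coprime m (4 * a) := by
    unfold ja at hm
    rw [if_pos hodd] at hm
    refine Nat.Coprime.mul_right ?_ ?_
    · exact Nat.Coprime.pow_right 2 (Nat.coprime_two_right.2 hodd)
    · by_contra hne
      have : jacobiSym (a : ℤ) m = 0 := by
        have : NeZero m := ⟨by rintro rfl; exact absurd hodd (by decide)⟩
        rw [jacobiSym.eq_zero_iff_not_coprime]
        intro hg
        apply hne
        rw [Nat.coprime_comm]
        simpa [Int.gcd, Nat.coprime_iff_gcd_eq_one] using hg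
      rw [this] at hm
      norm_num at hm
  have e0 : ∑ n ∈ range (4 * a), ja a n = ∑ x : ZMod (4 * a), ja a x.val := by
    symm
    refine sum_bij (fun x _ => x.val) ?_ ?_ ?_ ?_
    · intro x _
      exact mem_range.2 (ZMod.val_lt x)
    · intro x _ y _ h
      exact ZMod.val_injective _ h
    · intro n hn
      exact ⟨(n : ZMod (4 * a)), mem_univ _, ZMod.val_natCast_of_lt (mem_range.1 hn)⟩
    · intro x _; rfl
  set u : (ZMod (4 * a))ˣ := ZMod.unitOfCoprime m hcop with hu
  have e1 : ∑ x : ZMod (4 * a), ja a x.val = ∑ x : ZMod (4 * a), ja a (x * u).val :=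
    (Equiv.sum_comp (Units.mulRight u) fun x => ja a x.val).symm
  have e2 : ∀ x : ZMod (4 * a), ja a (x * u).val = - ja a x.val := by
    intro x
    rw [ZMod.val_mul, ja_mod, ja_mul, hu, ZMod.coe_unitOfCoprime, ZMod.val_natCast, ja_mod, hm]
    ring
  have e3 : ∑ x : ZMod (4 * a), ja a x.val = -∑ x : ZMod (4 * a), ja a x.val := by
    conv_lhs => rw [e1]
    rw [← sum_neg_distrib]
    exact sum_congr rfl fun x _ => e2 x
  rw [e0]
  omega

/-- the sums over an initial interval -/
lemma sum_range {a : ℕ} (ha : Squarefree a) (h1 : 1 < a) (n : ℕ) : |∑ m ∈ range n, ja a m| ≤ 4 * a := by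
  have key : ∀ q r : ℕ, ∑ m ∈ range (4 * a * q + r), ja a m = ∑ m ∈ range r, ja a m := by
    intro q r
    have h0 : ∀ q : ℕ, ∑ m ∈ range (4 * a * q), ja a m = 0 := by
      intro q
      induction q with
      | zero => simp
      | succ q ih =>
        rw [mul_add, mul_one, sum_range_add, ih, zero_add, ← sum_period ha h1]
        refine sum_congr rfl fun x _ => ?_
        rw [← ja_mod, ← ja_mod a x, Nat.mul_add_mod]
    rw [sum_range_add, h0, zero_add]
    refine sum_congr rfl fun x _ => ?_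
    rw [← ja_mod, ← ja_mod a x, Nat.mul_add_mod]
  rw [← Nat.div_add_mod n (4 * a), key]
  calc |∑ m ∈ range (n % (4 * a)), ja a m| ≤ ∑ m ∈ range (n % (4 * a)), |ja a m| := abs_sum_le_sum_abs _ _
    _ ≤ ∑ m ∈ range (n % (4 * a)), (1 : ℤ) := sum_le_sum fun x _ => ja_abs a x
    _ = ((n % (4 * a) : ℕ) : ℤ) := by simp
    _ ≤ ((4 * a : ℕ) : ℤ) := by exact_mod_cast (Nat.mod_lt n (by omega)).le
    _ = 4 * a := by push_cast; ring

/-- the odd multiples of `M` -/
lemma sum_mult {a : ℕ} (ha : Squarefree a) (h1 : 1 < a) (Q M : ℕ) (hM : 0 < M) :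
    |∑ q ∈ (Icc 1 Q).filter (fun q => M ∣ q), ja a q| ≤ 4 * a := by
  have e : ∑ q ∈ (Icc 1 Q).filter (fun q => M ∣ q), ja a q = ∑ m ∈ range (Q / M + 1), ja a (M * m) := by
    have h0 : ja a (M * 0) = 0 := by unfold ja; simp
    rw [sum_range_succ', h0, add_zero]
    symm
    refine sum_bij (fun m _ => M * (m + 1)) ?_ ?_ ?_ ?_
    · intro m hm
      rw [mem_range] at hm
      rw [mem_filter, mem_Icc]
      refine ⟨⟨Nat.succ_le_of_lt (Nat.mul_pos hM (Nat.succ_pos m)), ?_⟩, dvd_mul_right _ _⟩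
      rw [mul_comm]
      exact (Nat.le_div_iff_mul_le hM).1 hm
    · intro m _ m' _ h
      have := Nat.eq_of_mul_eq_mul_left hM h
      omega
    · intro q hq
      rw [mem_filter, mem_Icc] at hq
      obtain ⟨⟨hq1, hq2⟩, c, rfl⟩ := hq
      have hc : 0 < c := by
        rcases Nat.eq_zero_or_pos c with rfl | h
        · omega
        · exact h
      refine ⟨c - 1, ?_, ?_⟩
      · rw [mem_range]
        have : c ≤ Q / M := (Nat.le_div_iff_mul_le hM).2 (by rw [mul_comm]; exact hq2)
        omega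
      · show M * (c - 1 + 1) = M * c
        rw [Nat.sub_add_cancel hc]
    · intro m _; rfl
  rw [e]
  simp only [ja_mul]
  rw [← mul_sum, abs_mul]
  calc |ja a M| * |∑ m ∈ range (Q / M + 1), ja a m| ≤ 1 * (4 * a) :=
        mul_le_mul (ja_abs a M) (sum_range ha h1 _) (abs_nonneg _) (by norm_num)
    _ = 4 * a := one_mul _

/-- (J1a) character sums over odd squarefree `q ≡ 0 mod b` -/
theorem j1a : Pool.Agent.Helper11.Q3.StmtJ1a := by
  refine ⟨4, by norm_num, ?_⟩
  intro Q a b ha h1 hb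
  have hb0 : 0 < b := hb.pos
  have e1 : ∑ q ∈ (Pool.Agent.Helper11.Q3.OS Q).filter (fun q => b ∣ q), jacobiSym a q =
      ∑ k ∈ Icc 1 (Nat.sqrt Q), ArithmeticFunction.moebius k *
        ∑ q ∈ (Icc 1 Q).filter (fun q => Nat.lcm (k ^ 2) b ∣ q), ja a q := by
    calc ∑ q ∈ (Pool.Agent.Helper11.Q3.OS Q).filter (fun q => b ∣ q), jacobiSym a q
        = ∑ q ∈ Icc 1 Q, if b ∣ q then ja a q * (if Squarefree q then 1 else 0) else 0 := by
          rw [Pool.Agent.Helper11.Q3.OS, filter_filter, sum_filter]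
          refine sum_congr rfl fun q _ => ?_
          unfold ja
          by_cases h1 : Odd q <;> by_cases h2 : Squarefree q <;> by_cases h3 : b ∣ q <;> simp [h1, h2, h3]
      _ = ∑ q ∈ Icc 1 Q, ∑ k ∈ Icc 1 (Nat.sqrt Q), if Nat.lcm (k ^ 2) b ∣ q then ArithmeticFunction.moebius k * ja a q else 0 := by
          refine sum_congr rfl fun q hq => ?_
          rw [← Pool.Agent.Helper1.EA.sum_mu hq]
          by_cases h3 : b ∣ q
          · rw [if_pos h3, mul_sum, sum_filter]
            refine sum_congr rfl fun k _ => ?_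
            by_cases h4 : k ^ 2 ∣ q
            · rw [if_pos h4, if_pos (Nat.lcm_dvd h4 h3), mul_comm]
            · rw [if_neg h4, if_neg fun h => h4 ((Nat.dvd_lcm_left _ _).trans h)]
          · rw [if_neg h3]
            symm
            refine sum_eq_zero fun k _ => ?_
            rw [if_neg fun h => h3 ((Nat.dvd_lcm_right _ _).trans h)]
      _ = _ := by
          rw [sum_comm]
          refine sum_congr rfl fun k _ => ?_
          rw [mul_sum, sum_filter]
  have e2 : |∑ q ∈ (Pool.Agent.Helper11.Q3.OS Q).filter (fun q => b ∣ q), jacobiSym a q| ≤ (Nat.sqrt Q : ℤ) * (4 * a) := by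
    rw [e1]
    calc |∑ k ∈ Icc 1 (Nat.sqrt Q), ArithmeticFunction.moebius k *
          ∑ q ∈ (Icc 1 Q).filter (fun q => Nat.lcm (k ^ 2) b ∣ q), ja a q|
        ≤ ∑ k ∈ Icc 1 (Nat.sqrt Q), |(ArithmeticFunction.moebius k : ℤ) *
          ∑ q ∈ (Icc 1 Q).filter (fun q => Nat.lcm (k ^ 2) b ∣ q), ja a q| := abs_sum_le_sum_abs _ _
      _ ≤ ∑ k ∈ Icc 1 (Nat.sqrt Q), (4 * a : ℤ) := by
          refine sum_le_sum fun k hk => ?_
          rw [mem_Icc] at hk
          rw [abs_mul]
          have hM : 0 < Nat.lcm (k ^ 2) b := Nat.lcm_pos (pow_pos hk.1 2) hb0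
          calc |(ArithmeticFunction.moebius k : ℤ)| * |∑ q ∈ (Icc 1 Q).filter (fun q => Nat.lcm (k ^ 2) b ∣ q), ja a q|
              ≤ 1 * (4 * a) := mul_le_mul ArithmeticFunction.abs_moebius_le_one (sum_mult ha h1 Q _ hM) (abs_nonneg _) (by norm_num)
            _ = 4 * a := one_mul _
      _ = (Nat.sqrt Q : ℤ) * (4 * a) := by simp
  have e3 : |∑ q ∈ (Pool.Agent.Helper11.Q3.OS Q).filter (fun q => b ∣ q), (jacobiSym a q : ℝ)| ≤ (Nat.sqrt Q : ℝ) * (4 * a) := by
    exact_mod_cast e2
  calc |∑ q ∈ (Pool.Agent.Helper11.Q3.OS Q).filter (fun q => b ∣ q), (jacobiSym a q : ℝ)| ≤ (Nat.sqrt Q : ℝ) * (4 * a) := e3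
    _ ≤ Real.sqrt Q * (4 * a) := mul_le_mul_of_nonneg_right Real.nat_sqrt_le_real_sqrt (by positivity)
    _ = 4 * a * Real.sqrt Q := by ring

end Pool.Agent.Helper31.Q3
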